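import Pool.Agent.Q66.DS.Basic

/-! # JOB GRID (project DS) -/

set_option autoImplicit false

open MeasureTheory Set Metric Pool.Agent.Q66.DS

namespace Pool.Agent.Q98.DS

lemma grid_sq {a b : ℂ} (ha : ‖a‖ ≤ 1) (hb : ‖b‖ ≤ 1) : ‖a‖ ^ 2 ≤ ‖b‖ ^ 2 + 2 * ‖a - b‖ := by
  have h1 : ‖a‖ - ‖b‖ ≤ ‖a - b‖ := norm_sub_norm_le a b
  have h2 := norm_nonneg a
  have h3 := norm_nonneg b
  have h4 := norm_nonneg (a - b)
  nlinarith

lemma grid_exp {N : ℕ} (hN : 0 < N) {p : ℤ} (hp : p < N) {v : ℝ} (h1 : (p : ℝ) / N ≤ v)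
    (h2 : v ≤ ((p : ℝ) + 1) / N) : |Real.exp ((p : ℝ) / N) - Real.exp v| ≤ 3 / N := by
  have hN' : (0 : ℝ) < N := by exact_mod_cast hN
  have hv1 : v ≤ 1 := by
    refine h2.trans ?_
    rw [div_le_one hN']
    exact_mod_cast hp
  have h3 : Real.exp ((p : ℝ) / N) ≤ Real.exp v := Real.exp_le_exp.2 h1
  rw [abs_sub_comm, abs_of_nonneg (by linarith)]
  have h4 : Real.exp v - Real.exp ((p : ℝ) / N) ≤ Real.exp v * (v - (p : ℝ) / N) := by
    have h5 : Real.exp ((p : ℝ) / N) = Real.exp v * Real.exp ((p : ℝ) / N - v) := by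
      rw [← Real.exp_add]; congr 1; ring
    have h6 := Real.add_one_le_exp ((p : ℝ) / N - v)
    have h7 := Real.exp_pos v
    rw [h5]
    nlinarith
  have h8 : v - (p : ℝ) / N ≤ 1 / N := by
    have : ((p : ℝ) + 1) / N = (p : ℝ) / N + 1 / N := by ring
    linarith
  have h9 : Real.exp v ≤ 3 := (Real.exp_le_exp.2 hv1).trans (by
    have := Real.exp_one_lt_d9; linarith)
  calc Real.exp v - Real.exp ((p : ℝ) / N) ≤ Real.exp v * (v - (p : ℝ) / N) := h4
    _ ≤ 3 * (1 / N) := by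
        refine mul_le_mul h9 h8 (by linarith) (by norm_num)
    _ = 3 / N := by ring

theorem t_GRID (h : S_AVG) : S_GRID := by
  intro α C L hα hα1 hC
  obtain ⟨C', hC', H⟩ := h α C L hα hα1 hC
  refine ⟨C' + 72 * |L|, by positivity, ?_⟩
  intro μ hμ R ζ N hR hRN hζ hζ6
  haveI := hμ.1
  have hL := hμ.2.1
  have hR0 : 0 < R := by linarith
  have hNR : (1 : ℝ) ≤ N := le_trans (by nlinarith) hRN
  have hN : 0 < N := by
    have : (0 : ℝ) < N := by linarith
    exact_mod_cast this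
  have hN' : (0 : ℝ) < N := by linarith
  have hζ0 : 0 < ζ := by linarith
  set f : ℝ → ℝ := fun v => ‖ch μ (Real.exp v * ζ)‖ ^ 2 with hf
  have hfc : Continuous f := by
    have := continuous_ch μ
    fun_prop
  have hf0 : ∀ v, 0 ≤ f v := fun v => sq_nonneg _
  -- one term
  have term : ∀ p : ℤ, p < N → ‖ch μ (sN N p * ζ)‖ ^ 2 ≤
      N * (∫ v in ((p : ℝ) / N)..(((p : ℝ) + 1) / N), f v) + 36 * |L| * R / N := by
    intro p hp
    have hlt : (p : ℝ) / N ≤ ((p : ℝ) + 1) / N := by gcongr; linarith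
    have h1 : ∀ v ∈ Icc ((p : ℝ) / N) (((p : ℝ) + 1) / N),
        ‖ch μ (sN N p * ζ)‖ ^ 2 - 36 * |L| * R / N ≤ f v := by
      intro v hv
      have h2 := grid_sq (norm_ch_le μ (sN N p * ζ)) (norm_ch_le μ (Real.exp v * ζ))
      have h3 := ch_lip μ L hL (sN N p * ζ) (Real.exp v * ζ)
      have h4 : |sN N p * ζ - Real.exp v * ζ| ≤ 3 / N * (6 * R) := by
        rw [← sub_mul, abs_mul, abs_of_pos hζ0]
        exact mul_le_mul (grid_exp hN hp hv.1 hv.2) hζ6 hζ0.le (by positivity)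
      have h5 : ‖ch μ (sN N p * ζ) - ch μ (Real.exp v * ζ)‖ ≤ |L| * (3 / N * (6 * R)) :=
        h3.trans (mul_le_mul_of_nonneg_left h4 (abs_nonneg L))
      have h6 : |L| * (3 / N * (6 * R)) * 2 = 36 * |L| * R / N := by ring
      simp only [hf]
      linarith
    have h7 : ∫ v in ((p : ℝ) / N)..(((p : ℝ) + 1) / N),
        (‖ch μ (sN N p * ζ)‖ ^ 2 - 36 * |L| * R / N) ≤
        ∫ v in ((p : ℝ) / N)..(((p : ℝ) + 1) / N), f v :=
      intervalIntegral.integral_mono_on hlt (by simp)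
        (hfc.intervalIntegrable _ _) h1
    rw [intervalIntegral.integral_const, smul_eq_mul] at h7
    have h8 : ((p : ℝ) + 1) / N - (p : ℝ) / N = 1 / N := by ring
    rw [h8] at h7
    have h9 := mul_le_mul_of_nonneg_left h7 hN'.le
    have h10 : (N : ℝ) * (1 / N * (‖ch μ (sN N p * ζ)‖ ^ 2 - 36 * |L| * R / N)) =
        ‖ch μ (sN N p * ζ)‖ ^ 2 - 36 * |L| * R / N := by
      field_simp
    rw [h10] at h9
    linarith
  -- reindex
  have h1 : ∑ p ∈ Finset.Ioo (-(N : ℤ)) N, ‖ch μ (sN N p * ζ)‖ ^ 2 ≤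
      ∑ k ∈ Finset.range (2 * N), ‖ch μ (sN N ((k : ℤ) - N) * ζ)‖ ^ 2 := by
    have hinj : Set.InjOn (fun k : ℕ => (k : ℤ) - N) (Finset.range (2 * N)) := by
      intro a _ b _ hab
      simpa using hab
    rw [← Finset.sum_image (f := fun p : ℤ => ‖ch μ (sN N p * ζ)‖ ^ 2) hinj]
    refine Finset.sum_le_sum_of_subset_of_nonneg ?_ (fun _ _ _ => sq_nonneg _)
    intro p hp
    rw [Finset.mem_Ioo] at hp
    rw [Finset.mem_image]
    refine ⟨(p + N).toNat, ?_, ?_⟩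
    · rw [Finset.mem_range]; omega
    · have : ((p + N).toNat : ℤ) = p + N := Int.toNat_of_nonneg (by omega)
      simp only [this]
      ring
  have h2 : ∑ k ∈ Finset.range (2 * N), ‖ch μ (sN N ((k : ℤ) - N) * ζ)‖ ^ 2 ≤
      N * (∫ v in (-1 : ℝ)..1, f v) + 72 * |L| * R := by
    have h3 : ∀ k ∈ Finset.range (2 * N), ‖ch μ (sN N ((k : ℤ) - N) * ζ)‖ ^ 2 ≤
        N * (∫ v in (((k : ℝ) - N) / N)..((((k + 1 : ℕ) : ℝ) - N) / N), f v)
          + 36 * |L| * R / N := by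
      intro k hk
      rw [Finset.mem_range] at hk
      have := term ((k : ℤ) - N) (by omega)
      push_cast at this ⊢
      have e1 : (k : ℝ) - N + 1 = k + 1 - N := by ring
      rw [e1] at this
      exact this
    refine (Finset.sum_le_sum h3).trans ?_
    rw [Finset.sum_add_distrib, ← Finset.mul_sum, Finset.sum_const, Finset.card_range,
      intervalIntegral.sum_integral_adjacent_intervals (a := fun k : ℕ => ((k : ℝ) - N) / N)
        (fun k _ => hfc.intervalIntegrable _ _)]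
    have e1 : (((0 : ℕ) : ℝ) - N) / N = -1 := by
      push_cast
      rw [zero_sub, neg_div, div_self hN'.ne']
    have e2 : (((2 * N : ℕ) : ℝ) - N) / N = 1 := by
      push_cast
      rw [div_eq_one_iff_eq hN'.ne']; ring
    rw [e1, e2, nsmul_eq_mul]
    refine le_of_eq ?_
    push_cast
    field_simp
    ring
  have h4 := H μ hμ ζ hζ0
  have h5 : ζ ^ (-α) ≤ R ^ (-α) := Real.rpow_le_rpow_of_nonpos hR0 hζ (by linarith)
  have h6 : R ≤ N * R ^ (-α) := by
    have h7 : R ≤ R ^ 2 * R ^ (-α) := by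
      have e1 : R ^ 2 * R ^ (-α) = R ^ (2 - α) := by
        rw [← Real.rpow_natCast R 2, ← Real.rpow_add hR0]
        congr 1
      rw [e1]
      calc R = R ^ (1 : ℝ) := (Real.rpow_one R).symm
        _ ≤ R ^ (2 - α) := Real.rpow_le_rpow_of_exponent_le hR (by linarith)
    exact h7.trans (mul_le_mul_of_nonneg_right hRN (by positivity))
  calc ∑ p ∈ Finset.Ioo (-(N : ℤ)) N, ‖ch μ (sN N p * ζ)‖ ^ 2
      ≤ N * (∫ v in (-1 : ℝ)..1, f v) + 72 * |L| * R := h1.trans h2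
    _ ≤ N * (C' * R ^ (-α)) + 72 * |L| * (N * R ^ (-α)) := by
        have h7 : (∫ v in (-1 : ℝ)..1, f v) ≤ C' * R ^ (-α) :=
          h4.trans (mul_le_mul_of_nonneg_left h5 hC'.le)
        gcongr
    _ = (C' + 72 * |L|) * N * R ^ (-α) := by ring

end Pool.Agent.Q98.DS
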