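import Pool.Agent.Q66.DS.Basic

/-! # JOB TS (project DS) -/

set_option autoImplicit false

open MeasureTheory Set Metric Pool.Agent.Q66.DS

namespace Pool.Agent.Q98.DS

/-- the dyadic integrals -/
noncomputable def tsI (μ : Measure ℝ) (k : ℕ) {n : ℕ} (t : Fin n → ℝ) : ℝ :=
  ∫ ξ in ((2 : ℝ) ^ k)..(2 * 2 ^ k), ∏ i, ‖ch μ (t i * ξ)‖ ^ 2

lemma ts_le (k : ℕ) : (2 : ℝ) ^ k ≤ 2 * 2 ^ k := by
  have : (0 : ℝ) < 2 ^ k := by positivity
  linarith

lemma tsI_nonneg (μ : Measure ℝ) (k : ℕ) {n : ℕ} (t : Fin n → ℝ) : 0 ≤ tsI μ k t :=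
  intervalIntegral.integral_nonneg (ts_le k) fun _ _ => Finset.prod_nonneg fun _ _ => sq_nonneg _

lemma ts_cont (μ : Measure ℝ) [IsFiniteMeasure μ] {n : ℕ} (t : Fin n → ℝ) :
    Continuous fun ξ : ℝ => ∏ i, ‖ch μ (t i * ξ)‖ ^ 2 := by
  have := continuous_ch μ
  fun_prop

lemma ts_swap (μ : Measure ℝ) [IsFiniteMeasure μ] {n : ℕ} (t : Fin n → ℝ) (a b : ℝ) :
    ∫ u in (0 : ℝ)..1, ∫ ξ in a..b, (∏ i, ‖ch μ (t i * ξ)‖ ^ 2) * ‖ch μ (Real.exp u * ξ)‖ ^ 2 =
      ∫ ξ in a..b, (∏ i, ‖ch μ (t i * ξ)‖ ^ 2) * ∫ u in (0 : ℝ)..1, ‖ch μ (Real.exp u * ξ)‖ ^ 2 := by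
  have hc := continuous_ch μ
  have h := intervalIntegral_intervalIntegral_swap (a := (0 : ℝ)) (b := 1) (c := a) (d := b)
    (F := fun u ξ => (∏ i, ‖ch μ (t i * ξ)‖ ^ 2) * ‖ch μ (Real.exp u * ξ)‖ ^ 2) (by
      have h0 : IntegrableOn (Function.uncurry fun u ξ : ℝ =>
          (∏ i, ‖ch μ (t i * ξ)‖ ^ 2) * ‖ch μ (Real.exp u * ξ)‖ ^ 2)
          (uIcc (0 : ℝ) 1 ×ˢ uIcc a b) := by
        refine ContinuousOn.integrableOn_compact (isCompact_uIcc.prod isCompact_uIcc) ?_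
        refine Continuous.continuousOn ?_
        unfold Function.uncurry
        fun_prop
      exact h0.mono_set (Set.prod_mono uIoc_subset_uIcc uIoc_subset_uIcc))
  rw [h]
  refine intervalIntegral.integral_congr fun ξ _ => ?_
  exact intervalIntegral.integral_const_mul _ _

theorem ts_claim (h1 : S_L2) (h2 : S_AVG) (α C L : ℝ) (hα : 0 < α) (hα1 : α < 1) (hC : 0 < C)
    (μ : Measure ℝ) (hμ : Frost μ α C L) (ε : ℝ) (hε : 0 < ε) (m : ℕ) :
    ∃ t : Fin (m + 1) → ℝ, t 0 = 1 ∧ (∀ i, 1 ≤ t i ∧ t i ≤ 3) ∧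
      ∑' k : ℕ, ENNReal.ofReal (((2 : ℝ) ^ k) ^ (-(1 - (m + 1) * α + ε)) * tsI μ k t) ≠ ⊤ := by
  have hP := hμ.1
  have hc := continuous_ch μ
  induction m with
  | zero =>
    obtain ⟨C', hC', H⟩ := h1 α C L hα1 hC
    refine ⟨fun _ => 1, rfl, fun _ => ⟨le_rfl, by norm_num⟩, ?_⟩
    have hb : ∀ k : ℕ, ENNReal.ofReal (((2 : ℝ) ^ k) ^ (-(1 - ((0 : ℕ) + 1) * α + ε)) *
        tsI μ k (fun _ : Fin (0 + 1) => (1 : ℝ))) ≤ ENNReal.ofReal (C' * ((2 : ℝ) ^ (-ε)) ^ k) := by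
      intro k
      apply ENNReal.ofReal_le_ofReal
      have h3 : tsI μ k (fun _ : Fin (0 + 1) => (1 : ℝ)) ≤ C' * ((2 : ℝ) ^ k) ^ (1 - α) := by
        have := H μ hμ ((2 : ℝ) ^ k) (2 * 2 ^ k) ((2 : ℝ) ^ k) (by positivity) (ts_le k)
          (le_of_eq (by ring))
        simpa [tsI] using this
      have hp : (0 : ℝ) < (2 : ℝ) ^ k := by positivity
      calc ((2 : ℝ) ^ k) ^ (-(1 - ((0 : ℕ) + 1) * α + ε)) * tsI μ k (fun _ : Fin (0 + 1) => (1 : ℝ))
          ≤ ((2 : ℝ) ^ k) ^ (-(1 - ((0 : ℕ) + 1) * α + ε)) * (C' * ((2 : ℝ) ^ k) ^ (1 - α)) := by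
            gcongr
        _ = C' * (((2 : ℝ) ^ k) ^ (-(1 - ((0 : ℕ) + 1) * α + ε)) * ((2 : ℝ) ^ k) ^ (1 - α)) := by
            ring
        _ = C' * ((2 : ℝ) ^ k) ^ (-ε) := by
            rw [← Real.rpow_add hp]
            congr 2
            push_cast
            ring
        _ = C' * ((2 : ℝ) ^ (-ε)) ^ k := by
            rw [← Real.rpow_natCast, ← Real.rpow_natCast, ← Real.rpow_mul (by norm_num),
              ← Real.rpow_mul (by norm_num), mul_comm (k : ℝ)]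
    refine ne_top_of_le_ne_top ?_ (ENNReal.tsum_le_tsum hb)
    have hq0 : (0 : ℝ) ≤ (2 : ℝ) ^ (-ε) := by positivity
    have hq1 : (2 : ℝ) ^ (-ε) < 1 := Real.rpow_lt_one_of_one_lt_of_neg (by norm_num) (by linarith)
    have hs : Summable fun k : ℕ => C' * ((2 : ℝ) ^ (-ε)) ^ k :=
      (summable_geometric_of_lt_one hq0 hq1).mul_left C'
    rw [← ENNReal.ofReal_tsum_of_nonneg (fun k => by positivity) hs]
    exact ENNReal.ofReal_ne_top
  | succ m ih =>
    obtain ⟨t, ht0, ht, hsum⟩ := ih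
    obtain ⟨C', hC', H⟩ := h2 α C L hα hα1 hC
    set β : ℝ := 1 - (((m + 1 : ℕ) : ℝ) + 1) * α + ε with hβ
    set J : ℕ → ℝ → ℝ := fun k u => ∫ ξ in ((2 : ℝ) ^ k)..(2 * 2 ^ k),
      (∏ i, ‖ch μ (t i * ξ)‖ ^ 2) * ‖ch μ (Real.exp u * ξ)‖ ^ 2 with hJ
    have hJ0 : ∀ k u, 0 ≤ J k u := fun k u =>
      intervalIntegral.integral_nonneg (ts_le k) fun _ _ =>
        mul_nonneg (Finset.prod_nonneg fun _ _ => sq_nonneg _) (sq_nonneg _)
    have hJc : ∀ k, Continuous (J k) := by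
      intro k
      refine intervalIntegral.continuous_parametric_intervalIntegral_of_continuous' ?_ _ _
      unfold Function.uncurry
      fun_prop
    have hJi : ∀ k, ∫ u in (0 : ℝ)..1, J k u ≤ C' * ((2 : ℝ) ^ k) ^ (-α) * tsI μ k t := by
      intro k
      have hp : (0 : ℝ) < (2 : ℝ) ^ k := by positivity
      simp only [hJ]
      rw [ts_swap, tsI, ← intervalIntegral.integral_const_mul]
      refine intervalIntegral.integral_mono_on (ts_le k) ?_ ?_ ?_
      · refine Continuous.intervalIntegrable ?_ _ _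
        refine (ts_cont μ t).mul ?_
        refine intervalIntegral.continuous_parametric_intervalIntegral_of_continuous' ?_ _ _
        unfold Function.uncurry
        fun_prop
      · exact ((ts_cont μ t).const_mul _).intervalIntegrable _ _
      · intro ξ hξ
        have hξ0 : 0 < ξ := hp.trans_le hξ.1
        rw [mul_comm]
        refine mul_le_mul_of_nonneg_right ?_ (Finset.prod_nonneg fun _ _ => sq_nonneg _)
        have h3 := H μ hμ ξ hξ0
        have h4 : ∫ u in (0 : ℝ)..1, ‖ch μ (Real.exp u * ξ)‖ ^ 2 ≤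
            ∫ u in (-1 : ℝ)..1, ‖ch μ (Real.exp u * ξ)‖ ^ 2 := by
          refine intervalIntegral.integral_mono_interval (by norm_num) (by norm_num) le_rfl
            (Filter.Eventually.of_forall fun _ => sq_nonneg _) ?_
          exact Continuous.intervalIntegrable (by fun_prop) _ _
        refine h4.trans (h3.trans ?_)
        refine mul_le_mul_of_nonneg_left ?_ hC'.le
        exact Real.rpow_le_rpow_of_nonpos hp hξ.1 (by linarith)
    have hcoef : ∀ k : ℕ, (0 : ℝ) ≤ ((2 : ℝ) ^ k) ^ (-β) := fun k => by positivity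
    have hL : ∫⁻ u in Icc (0 : ℝ) 1, ∑' k : ℕ, ENNReal.ofReal (((2 : ℝ) ^ k) ^ (-β) * J k u) ≠ ⊤ := by
      rw [lintegral_tsum (fun k => by
        have := (hJc k).measurable
        fun_prop)]
      have h3 : ∀ k : ℕ, ∫⁻ u in Icc (0 : ℝ) 1, ENNReal.ofReal (((2 : ℝ) ^ k) ^ (-β) * J k u) ≤
          ENNReal.ofReal C' *
            ENNReal.ofReal (((2 : ℝ) ^ k) ^ (-(1 - (m + 1) * α + ε)) * tsI μ k t) := by
        intro k
        have hp : (0 : ℝ) < (2 : ℝ) ^ k := by positivity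
        rw [← ofReal_integral_eq_lintegral_ofReal
          ((((hJc k).const_mul _).continuousOn).integrableOn_compact isCompact_Icc)
          (Filter.Eventually.of_forall fun u => mul_nonneg (hcoef k) (hJ0 k u)),
          ← ENNReal.ofReal_mul hC'.le]
        apply ENNReal.ofReal_le_ofReal
        rw [integral_const_mul, integral_Icc_eq_integral_Ioc,
          ← intervalIntegral.integral_of_le (by norm_num)]
        calc ((2 : ℝ) ^ k) ^ (-β) * ∫ u in (0 : ℝ)..1, J k u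
            ≤ ((2 : ℝ) ^ k) ^ (-β) * (C' * ((2 : ℝ) ^ k) ^ (-α) * tsI μ k t) :=
              mul_le_mul_of_nonneg_left (hJi k) (hcoef k)
          _ = C' * ((((2 : ℝ) ^ k) ^ (-β) * ((2 : ℝ) ^ k) ^ (-α)) * tsI μ k t) := by ring
          _ = _ := by
              rw [← Real.rpow_add hp]
              have e1 : -β + -α = -(1 - (m + 1) * α + ε) := by
                rw [hβ]; push_cast; ring
              rw [e1]
      refine ne_top_of_le_ne_top ?_ (ENNReal.tsum_le_tsum h3)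
      rw [ENNReal.tsum_mul_left]
      exact ENNReal.mul_ne_top ENNReal.ofReal_ne_top hsum
    obtain ⟨u, hu, hfin⟩ : ∃ u ∈ Icc (0 : ℝ) 1,
        ∑' k : ℕ, ENNReal.ofReal (((2 : ℝ) ^ k) ^ (-β) * J k u) ≠ ⊤ := by
      have hm : Measurable fun u : ℝ =>
          ∑' k : ℕ, ENNReal.ofReal (((2 : ℝ) ^ k) ^ (-β) * J k u) := by
        refine Measurable.ennreal_tsum fun k => ?_
        have := (hJc k).measurable
        fun_prop
      have hae := ae_lt_top hm hL
      rw [ae_restrict_iff' measurableSet_Icc] at hae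
      by_contra hcon
      push Not at hcon
      have : (volume : Measure ℝ) (Icc (0 : ℝ) 1) = 0 := by
        refine measure_mono_null ?_ (ae_iff.1 hae)
        intro u hu
        simp only [mem_ofPred_eq, Classical.not_imp, not_lt, top_le_iff]
        exact ⟨hu, hcon u hu⟩
      rw [Real.volume_Icc] at this
      norm_num at this
    refine ⟨Fin.snoc (α := fun _ => ℝ) t (Real.exp u), ?_, ?_, ?_⟩
    · have : (0 : Fin (m + 1 + 1)) = Fin.castSucc 0 := rfl
      rw [this, Fin.snoc_castSucc, ht0]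
    · intro i
      refine Fin.lastCases ?_ (fun j => ?_) i
      · rw [Fin.snoc_last]
        refine ⟨Real.one_le_exp hu.1, (Real.exp_le_exp.2 hu.2).trans ?_⟩
        have := Real.exp_one_lt_d9
        linarith
      · rw [Fin.snoc_castSucc]
        exact ht j
    · have e1 : ∀ k, tsI μ k (Fin.snoc (α := fun _ => ℝ) t (Real.exp u)) = J k u := by
        intro k
        simp only [tsI, hJ]
        refine intervalIntegral.integral_congr fun ξ _ => ?_
        simp only [Fin.prod_univ_castSucc, Fin.snoc_castSucc, Fin.snoc_last]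
      simp only [e1]
      exact hfin

theorem t_TS (h1 : S_L2) (h2 : S_AVG) : S_TS := by
  intro m α C L ε hα hα1 hC hε μ hμ
  obtain ⟨t, ht0, ht, hsum⟩ := ts_claim h1 h2 α C L hα hα1 hC μ hμ ε hε m
  refine ⟨t, ht0, ht, ?_⟩
  set T := (∑' k : ℕ, ENNReal.ofReal (((2 : ℝ) ^ k) ^ (-(1 - (m + 1) * α + ε)) * tsI μ k t)).toReal
    with hT
  have hT0 : 0 ≤ T := ENNReal.toReal_nonneg
  refine ⟨T + 1, by linarith, ?_⟩
  intro k
  have hp : (0 : ℝ) < (2 : ℝ) ^ k := by positivity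
  have h3 : ((2 : ℝ) ^ k) ^ (-(1 - (m + 1) * α + ε)) * tsI μ k t ≤ T := by
    have h4 := ENNReal.le_tsum (f := fun k : ℕ =>
      ENNReal.ofReal (((2 : ℝ) ^ k) ^ (-(1 - (m + 1) * α + ε)) * tsI μ k t)) k
    have h5 := ENNReal.toReal_mono hsum h4
    rwa [ENNReal.toReal_ofReal (mul_nonneg (by positivity) (tsI_nonneg μ k t))] at h5
  have h6 : tsI μ k t ≤ T * ((2 : ℝ) ^ k) ^ (1 - (m + 1) * α + ε) := by
    have h7 := mul_le_mul_of_nonneg_right h3
      (show 0 ≤ ((2 : ℝ) ^ k) ^ (1 - (m + 1) * α + ε) by positivity)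
    have e1 : ((2 : ℝ) ^ k) ^ (-(1 - (m + 1) * α + ε)) * tsI μ k t *
        ((2 : ℝ) ^ k) ^ (1 - (m + 1) * α + ε) = tsI μ k t := by
      rw [mul_right_comm, ← Real.rpow_add hp, neg_add_cancel, Real.rpow_zero, one_mul]
    rwa [e1] at h7
  have h8 : 0 ≤ ((2 : ℝ) ^ k) ^ (1 - (m + 1) * α + ε) := by positivity
  calc ∫ ξ in ((2 : ℝ) ^ k)..(2 * 2 ^ k), ∏ i, ‖ch μ (t i * ξ)‖ ^ 2 = tsI μ k t := rfl
    _ ≤ _ := h6
    _ ≤ _ := by nlinarith

end Pool.Agent.Q98.DS
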